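import Mathlib

/-!
# MP_6fdec2_co: no interpolating polynomial, even for clique complexes

There is a finite graph such that for its clique complex `Δ` no polynomial `P(q, t)` satisfies
`χ(S_Δ^q, t) = P(q, t)` for all primes `q`. The reason is that signed sums of the numbers
`χ(S_Δ^q, q³)` over suitable clique complexes count realizations of the Fano plane over `𝔽_q`.
-/

set_option autoImplicit false
set_option linter.unusedSectionVars false

open Finset

namespace Pool.Agent.Results.MP_6fdec2_co.NoPolynomial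

/-! ### Definitions -/

section defs

variable {V : Type} [Fintype V] [DecidableEq V]

/-- The hyperplane (kernel) of the linear form `∑_{i ∈ σ} a_i x_i` on `F^V`. -/
def hyp (F : Type) [Field F] (σ : Finset V) (a : V → F) : Submodule F (V → F) :=
  LinearMap.ker (∑ i ∈ σ, a i • (LinearMap.proj i : (V → F) →ₗ[F] F))

open Classical in
/-- The arrangement `S_Δ^q` for the finite field `F` with `q` elements: all kernels of the forms
`∑_{i ∈ σ} a_i x_i` with `σ` a nonempty face and all `a_i` (`i ∈ σ`) nonzero. -/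
noncomputable def arrangement (Δ : Finset (Finset V)) (F : Type) [Field F] [Fintype F] :
    Finset (Submodule F (V → F)) :=
  ((Δ ×ˢ (Finset.univ : Finset (V → F))).filter
    fun p => p.1.Nonempty ∧ ∀ i ∈ p.1, p.2 i ≠ 0).image fun p => hyp F p.1 p.2

/-- The characteristic polynomial `∑_I (-1)^{|I|} t^{dim H_I}` of a finite arrangement. -/
noncomputable def charPoly {F : Type} [Field F] (A : Finset (Submodule F (V → F))) :
    Polynomial ℤ :=
  ∑ I ∈ A.powerset, (-1) ^ I.card * Polynomial.X ^ (Module.finrank F (I.inf id : Submodule F (V → F)))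

/-- The two variable polynomial `P(q, t)` (a polynomial in `t` whose coefficients are polynomials in
`q`) satisfies `χ(S_Δ^q, t) = P(q, t)` for every prime `q`. -/
def InterpolatesPrimes (Δ : Finset (Finset V)) (P : Polynomial (Polynomial ℂ)) : Prop :=
  ∀ (q : ℕ) [Fact q.Prime],
    (charPoly (arrangement Δ (ZMod q))).map (Int.castRingHom ℂ)
      = P.map (Polynomial.evalRingHom (q : ℂ))

open Classical in
/-- The clique complex of a graph. -/
noncomputable def cliqueComplex (G : SimpleGraph V) : Finset (Finset V) :=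
  Finset.univ.filter fun σ => G.IsClique (σ : Set V)

end defs

/-! ### The finite field method -/

section count

variable {V : Type} [Fintype V] [DecidableEq V] {F : Type} [Field F] [Fintype F]

open Classical in
theorem eval_charPoly (A : Finset (Submodule F (V → F))) :
    (charPoly A).eval ((Fintype.card F : ℤ) ^ 3)
      = ((Finset.univ.filter fun x : Fin 3 → V → F => ∀ H ∈ A, ¬ ∀ k, x k ∈ H).card : ℤ) := by
  have h1 := Finset.inclusion_exclusion_card_inf_compl A
    (fun H : Submodule F (V → F) => Finset.univ.filter fun x : Fin 3 → V → F => ∀ k, x k ∈ H)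
  have h2 : (A.inf fun H : Submodule F (V → F) =>
      (Finset.univ.filter fun x : Fin 3 → V → F => ∀ k, x k ∈ H)ᶜ)
      = Finset.univ.filter fun x : Fin 3 → V → F => ∀ H ∈ A, ¬ ∀ k, x k ∈ H := by
    ext x
    simp [Finset.mem_inf]
  rw [h2] at h1
  rw [h1]
  unfold charPoly
  rw [Polynomial.eval_finsetSum]
  apply Finset.sum_congr rfl
  intro I _
  rw [Polynomial.eval_mul, Polynomial.eval_pow, Polynomial.eval_pow, Polynomial.eval_X]
  congr 1
  · simp
  · have h3 : (I.inf fun H : Submodule F (V → F) =>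
        Finset.univ.filter fun x : Fin 3 → V → F => ∀ k, x k ∈ H)
        = Finset.univ.filter fun x : Fin 3 → V → F => ∀ k, x k ∈ (I.inf id : Submodule F (V → F)) := by
      ext x
      simp only [Finset.mem_inf, Finset.mem_filter, Finset.mem_univ, true_and, Submodule.mem_finsetInf,
        id]
      tauto
    rw [h3]
    have h4 : (Finset.univ.filter fun x : Fin 3 → V → F =>
        ∀ k, x k ∈ (I.inf id : Submodule F (V → F))).card
        = Fintype.card (Fin 3 → (I.inf id : Submodule F (V → F))) := by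
      rw [← Fintype.card_coe]
      apply Fintype.card_congr
      exact
        { toFun := fun x k => ⟨x.1 k, (Finset.mem_filter.1 x.2).2 k⟩
          invFun := fun y => ⟨fun k => (y k).1, by
            rw [Finset.mem_filter]
            exact ⟨Finset.mem_univ _, fun k => (y k).2⟩⟩
          left_inv := fun x => rfl
          right_inv := fun y => rfl }
    rw [h4, Fintype.card_fun, Fintype.card_fin,
      Module.card_eq_pow_finrank (K := F) (V := (I.inf id : Submodule F (V → F)))]
    push_cast
    ring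

/-- the configuration of vectors `x` is admissible for the complex `Δ` -/
def Adm (Δ : Finset (Finset V)) (x : Fin 3 → V → F) : Prop :=
  ∀ σ ∈ Δ, σ.Nonempty → ∀ a : V → F, (∀ i ∈ σ, a i ≠ 0) → ∃ k, ∑ i ∈ σ, a i * x k i ≠ 0

theorem mem_hyp {σ : Finset V} {a : V → F} {x : V → F} :
    x ∈ hyp F σ a ↔ ∑ i ∈ σ, a i * x i = 0 := by
  simp [hyp, LinearMap.mem_ker, LinearMap.sum_apply]

open Classical in
theorem eval_arr (Δ : Finset (Finset V)) :
    (charPoly (arrangement Δ F)).eval ((Fintype.card F : ℤ) ^ 3)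
      = ((Finset.univ.filter fun x : Fin 3 → V → F => Adm Δ x).card : ℤ) := by
  rw [eval_charPoly]
  congr 2
  ext x
  simp only [Finset.mem_filter, Finset.mem_univ, true_and, arrangement, Finset.mem_image,
    Finset.mem_product, and_true, Prod.exists]
  constructor
  · intro h σ hσ hne a ha
    have := h (hyp F σ a) ⟨σ, a, ⟨hσ, hne, ha⟩, rfl⟩
    push Not at this
    obtain ⟨k, hk⟩ := this
    exact ⟨k, fun h0 => hk (mem_hyp.2 h0)⟩
  · rintro h H ⟨σ, a, ⟨hσ, hne, ha⟩, rfl⟩ hk
    obtain ⟨k, hk'⟩ := h σ hσ hne a ha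
    exact hk' (mem_hyp.1 (hk k))

end count

/-! ### The graphs -/

/-- vertices: seven points and, for each of 14 triples, three private copies -/
abbrev Vx : Type := Fin 7 ⊕ (Fin 14 × Fin 3)

/-- the 14 triples: the seven lines of a Fano plane and the seven lines of a disjoint one -/
def T : Fin 14 → Fin 3 → Fin 7 :=
  ![![1, 2, 4], ![0, 3, 4], ![0, 2, 5], ![1, 3, 5], ![0, 1, 6], ![2, 3, 6], ![4, 5, 6],
    ![0, 1, 2], ![0, 3, 5], ![0, 4, 6], ![1, 3, 6], ![1, 4, 5], ![2, 3, 4], ![2, 5, 6]]

theorem T_inj : ∀ t x y, T t x = T t y → x = y := by decide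

/-- index set of the inclusion-exclusion: links between a point and a copy, and triples -/
abbrev Ix : Type := (Fin 14 × Fin 3) ⊕ Fin 14

/-- the triples whose copies form a triangle -/
def Act (s : Finset Ix) (t : Fin 14) : Prop := Sum.inr t ∈ s ∨ 7 ≤ (t : ℕ)

/-- adjacency -/
def adj (s : Finset Ix) : Vx → Vx → Prop
  | Sum.inl i, Sum.inr c => Sum.inl c ∈ s ∧ T c.1 c.2 = i
  | Sum.inr c, Sum.inl i => Sum.inl c ∈ s ∧ T c.1 c.2 = i
  | Sum.inr c, Sum.inr d => c.1 = d.1 ∧ c.2 ≠ d.2 ∧ Act s c.1
  | Sum.inl _, Sum.inl _ => False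

/-- the graph -/
def Gr (s : Finset Ix) : SimpleGraph Vx where
  Adj := adj s
  symm := ⟨by
    rintro (i | c) (j | d) h
    · exact h
    · exact h
    · exact h
    · exact ⟨h.1.symm, h.2.1.symm, by rw [← h.1]; exact h.2.2⟩⟩
  loopless := ⟨by
    rintro (i | c) h
    · exact h
    · exact h.2.1 rfl⟩

section config

variable {F : Type} [Field F]

/-- the `u`-th vector -/
def vec (x : Fin 3 → Vx → F) (u : Vx) : Fin 3 → F := fun k => x k u

/-- two vectors without relation with nonzero coefficients -/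
def Ind2 (u w : Fin 3 → F) : Prop := ∀ a b : F, a ≠ 0 → b ≠ 0 → a • u + b • w ≠ 0

/-- three pairwise `Ind2` vectors without relation with nonzero coefficients -/
def Ind3 (u w z : Fin 3 → F) : Prop := Ind2 u w ∧ Ind2 u z ∧ Ind2 w z ∧
  ∀ a b c : F, a ≠ 0 → b ≠ 0 → c ≠ 0 → a • u + b • w + c • z ≠ 0

theorem sum_ne {σ : Finset Vx} {x : Fin 3 → Vx → F} {a : Vx → F} :
    (∃ k, ∑ i ∈ σ, a i * x k i ≠ 0) ↔ ∑ i ∈ σ, a i • vec x i ≠ 0 := by
  constructor
  · rintro ⟨k, hk⟩ h
    apply hk
    have := congrFun h k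
    simpa [Finset.sum_apply, vec] using this
  · intro h
    by_contra hcon
    push Not at hcon
    apply h
    funext k
    simpa [Finset.sum_apply, vec] using hcon k

theorem mem_clique {s : Finset Ix} {σ : Finset Vx} :
    σ ∈ cliqueComplex (Gr s) ↔ ∀ u ∈ σ, ∀ w ∈ σ, u ≠ w → adj s u w := by
  classical
  unfold cliqueComplex
  constructor
  · intro h u hu w hw hne
    exact (Finset.mem_filter.1 h).2 hu hw hne
  · intro h
    exact Finset.mem_filter.2 ⟨Finset.mem_univ _, fun u hu w hw hne => h u hu w hw hne⟩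

theorem adm_iff {s : Finset Ix} {x : Fin 3 → Vx → F} : Adm (cliqueComplex (Gr s)) x ↔
    (∀ u, vec x u ≠ 0) ∧ (∀ c : Fin 14 × Fin 3, Sum.inl c ∈ s →
      Ind2 (vec x (Sum.inl (T c.1 c.2))) (vec x (Sum.inr c))) ∧
    (∀ t, Act s t → Ind3 (vec x (Sum.inr (t, 0))) (vec x (Sum.inr (t, 1)))
      (vec x (Sum.inr (t, 2)))) := by
  constructor
  · intro h
    have h1 : ∀ u, vec x u ≠ 0 := by
      intro u
      have := h {u} (mem_clique.2 (by
        intro v hv w hw hne
        rw [Finset.mem_singleton] at hv hw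
        exact absurd (hv.trans hw.symm) hne)) ⟨u, by simp⟩ (fun _ => 1) (by simp)
      rw [sum_ne] at this
      simpa using this
    have h2 : ∀ u w, u ≠ w → adj s u w → adj s w u → Ind2 (vec x u) (vec x w) := by
      intro u w hne hadj hadj' a b ha hb
      have := h {u, w} (mem_clique.2 (by
        intro v hv z hz hvz
        rw [Finset.mem_insert, Finset.mem_singleton] at hv hz
        rcases hv with rfl | rfl <;> rcases hz with rfl | rfl
        · exact absurd rfl hvz
        · exact hadj
        · exact hadj'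
        · exact absurd rfl hvz)) ⟨u, by simp⟩ (fun v => if v = u then a else b) (by
        intro v _
        split_ifs
        · exact ha
        · exact hb)
      rw [sum_ne, Finset.sum_pair hne] at this
      simpa [hne.symm] using this
    refine ⟨h1, ?_, ?_⟩
    · intro c hc
      exact h2 _ _ (by simp) ⟨hc, rfl⟩ ⟨hc, rfl⟩
    · intro t ht
      have hadj : ∀ i j : Fin 3, i ≠ j → adj s (Sum.inr (t, i)) (Sum.inr (t, j)) :=
        fun i j hij => ⟨rfl, hij, ht⟩
      refine ⟨h2 _ _ (by simp) (hadj _ _ (by decide)) (hadj _ _ (by decide)),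
        h2 _ _ (by simp) (hadj _ _ (by decide)) (hadj _ _ (by decide)),
        h2 _ _ (by simp) (hadj _ _ (by decide)) (hadj _ _ (by decide)), ?_⟩
      intro a b c ha hb hc
      have := h {Sum.inr (t, 0), Sum.inr (t, 1), Sum.inr (t, 2)} (mem_clique.2 (by
        intro v hv z hz hvz
        simp only [Finset.mem_insert, Finset.mem_singleton] at hv hz
        rcases hv with rfl | rfl | rfl <;> rcases hz with rfl | rfl | rfl
        · exact absurd rfl hvz
        · exact hadj _ _ (by decide)
        · exact hadj _ _ (by decide)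
        · exact hadj _ _ (by decide)
        · exact absurd rfl hvz
        · exact hadj _ _ (by decide)
        · exact hadj _ _ (by decide)
        · exact hadj _ _ (by decide)
        · exact absurd rfl hvz)) ⟨Sum.inr (t, 0), by simp⟩
        (fun v => if v = Sum.inr (t, 0) then a else if v = Sum.inr (t, 1) then b else c) (by
        intro v _
        split_ifs
        · exact ha
        · exact hb
        · exact hc)
      rw [sum_ne, Finset.sum_insert (by simp), Finset.sum_insert (by simp),
        Finset.sum_singleton] at this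
      simpa [← add_assoc] using this
  · rintro ⟨h1, h2, h3⟩ σ hσ hne a ha
    rw [sum_ne]
    rw [mem_clique] at hσ
    have hI2 : ∀ u w, u ≠ w → u ∈ σ → w ∈ σ → Ind2 (vec x u) (vec x w) → σ = {u, w} →
        ∑ i ∈ σ, a i • vec x i ≠ 0 := by
      intro u w huw hu hw hI hs
      rw [hs, Finset.sum_pair huw]
      exact hI _ _ (ha u hu) (ha w hw)
    by_cases hcase : ∃ i, Sum.inl i ∈ σ
    · obtain ⟨i, hi⟩ := hcase
      -- all other vertices are copies linked to i; at most one of them
      by_cases hother : ∃ c, Sum.inr c ∈ σ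
      · obtain ⟨c, hc⟩ := hother
        have hic : adj s (Sum.inl i) (Sum.inr c) := hσ _ hi _ hc (by simp)
        apply hI2 (Sum.inl i) (Sum.inr c) (by simp) hi hc
        · have := h2 c hic.1
          rw [hic.2] at this
          exact this
        · ext v
          rw [Finset.mem_insert, Finset.mem_singleton]
          constructor
          · intro hv
            rcases v with j | d
            · left
              by_contra hne'
              exact hσ _ hv _ hi hne'
            · right
              by_contra hne'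
              have e1 : adj s (Sum.inl i) (Sum.inr d) := hσ _ hi _ hv (by simp)
              have e2 : adj s (Sum.inr d) (Sum.inr c) := hσ _ hv _ hc hne'
              have e3 : T d.1 d.2 = T d.1 c.2 := by
                rw [e1.2, e2.1, hic.2]
              exact e2.2.1 (T_inj _ _ _ e3)
          · rintro (rfl | rfl)
            · exact hi
            · exact hc
      · have hs : σ = {Sum.inl i} := by
          ext v
          rw [Finset.mem_singleton]
          constructor
          · intro hv
            rcases v with j | d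
            · by_contra hne'
              exact hσ _ hv _ hi hne'
            · exact absurd ⟨d, hv⟩ hother
          · rintro rfl
            exact hi
        rw [hs, Finset.sum_singleton]
        exact smul_ne_zero (ha _ hi) (h1 _)
    · -- all vertices are copies
      push Not at hcase
      obtain ⟨v, hv⟩ := hne
      rcases v with j | ⟨t, y⟩
      · exact absurd hv (hcase j)
      by_cases hsing : σ = {Sum.inr (t, y)}
      · rw [hsing, Finset.sum_singleton]
        exact smul_ne_zero (ha _ hv) (h1 _)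
      · -- another copy
        have hex : ∃ w ∈ σ, w ≠ Sum.inr (t, y) := by
          by_contra hcon
          push Not at hcon
          apply hsing
          ext w
          rw [Finset.mem_singleton]
          exact ⟨hcon w, fun h => by rw [h]; exact hv⟩
        obtain ⟨w, hw, hwne⟩ := hex
        have hall : ∀ w ∈ σ, ∃ z : Fin 3, w = Sum.inr (t, z) := by
          intro w hw
          by_cases hwe : w = Sum.inr (t, y)
          · exact ⟨y, hwe⟩
          · rcases w with j | ⟨t', z⟩
            · exact absurd hw (hcase j)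
            · have e := hσ _ hw _ hv hwe
              have : t' = t := e.1
              exact ⟨z, by rw [this]⟩
        have hact : Act s t := by
          obtain ⟨z, rfl⟩ := hall w hw
          exact (hσ _ hw _ hv hwne).2.2
        have hI := h3 t hact
        -- write the sum over the three copies
        have hsum : ∑ i ∈ σ, a i • vec x i
            = ∑ z : Fin 3, (if Sum.inr (t, z) ∈ σ then a (Sum.inr (t, z)) else 0) •
              vec x (Sum.inr (t, z)) := by
          have hσe : σ = (Finset.univ.filter fun z : Fin 3 => (Sum.inr (t, z) : Vx) ∈ σ).image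
              (fun z => (Sum.inr (t, z) : Vx)) := by
            ext w
            rw [Finset.mem_image]
            constructor
            · intro hw
              obtain ⟨z, rfl⟩ := hall w hw
              exact ⟨z, Finset.mem_filter.2 ⟨Finset.mem_univ _, hw⟩, rfl⟩
            · rintro ⟨z, hz, rfl⟩
              exact (Finset.mem_filter.1 hz).2
          conv_lhs => rw [hσe]
          rw [Finset.sum_image (by
            intro z _ z' _ h
            simpa using h), Finset.sum_filter]
          apply Finset.sum_congr rfl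
          intro z _
          by_cases hz : (Sum.inr (t, z) : Vx) ∈ σ
          · rw [if_pos hz, if_pos hz]
          · rw [if_neg hz, if_neg hz, zero_smul]
        rw [hsum, Fin.sum_univ_three]
        obtain ⟨i01, i02, i12, i3⟩ := hI
        -- at least two of the three are in σ
        by_cases m0 : (Sum.inr (t, 0) : Vx) ∈ σ <;> by_cases m1 : (Sum.inr (t, 1) : Vx) ∈ σ <;>
          by_cases m2 : (Sum.inr (t, 2) : Vx) ∈ σ
        · simp only [m0, m1, m2, if_true]
          exact i3 _ _ _ (ha _ m0) (ha _ m1) (ha _ m2)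
        · simp only [m0, m1, m2, if_true, if_false, zero_smul, add_zero]
          exact i01 _ _ (ha _ m0) (ha _ m1)
        · simp only [m0, m1, m2, if_true, if_false, zero_smul, add_zero]
          exact i02 _ _ (ha _ m0) (ha _ m2)
        · exfalso
          obtain ⟨z, rfl⟩ := hall w hw
          have hy : y = 0 := by
            fin_cases y
            · rfl
            · exact absurd hv m1
            · exact absurd hv m2
          have hz : z = 0 := by
            fin_cases z
            · rfl
            · exact absurd hw m1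
            · exact absurd hw m2
          exact hwne (by rw [hy, hz])
        · simp only [m0, m1, m2, if_true, if_false, zero_smul, zero_add]
          exact i12 _ _ (ha _ m1) (ha _ m2)
        · exfalso
          obtain ⟨z, rfl⟩ := hall w hw
          have hy : y = 1 := by
            fin_cases y
            · exact absurd hv m0
            · rfl
            · exact absurd hv m2
          have hz : z = 1 := by
            fin_cases z
            · exact absurd hw m0
            · rfl
            · exact absurd hw m2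
          exact hwne (by rw [hy, hz])
        · exfalso
          obtain ⟨z, rfl⟩ := hall w hw
          have hy : y = 2 := by
            fin_cases y
            · exact absurd hv m0
            · exact absurd hv m1
            · rfl
          have hz : z = 2 := by
            fin_cases z
            · exact absurd hw m0
            · exact absurd hw m1
            · rfl
          exact hwne (by rw [hy, hz])
        · exfalso
          fin_cases y
          · exact absurd hv m0
          · exact absurd hv m1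
          · exact absurd hv m2

/-- the condition belonging to an index -/
def cond (i : Ix) (x : Fin 3 → Vx → F) : Prop :=
  match i with
  | Sum.inl c => Ind2 (vec x (Sum.inl (T c.1 c.2))) (vec x (Sum.inr c))
  | Sum.inr t => Ind3 (vec x (Sum.inr (t, 0))) (vec x (Sum.inr (t, 1))) (vec x (Sum.inr (t, 2)))

/-- the conditions which are always present -/
def base (x : Fin 3 → Vx → F) : Prop :=
  (∀ u, vec x u ≠ 0) ∧ ∀ t : Fin 14, 7 ≤ (t : ℕ) →
    Ind3 (vec x (Sum.inr (t, 0))) (vec x (Sum.inr (t, 1))) (vec x (Sum.inr (t, 2)))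

theorem adm_iff' {s : Finset Ix} {x : Fin 3 → Vx → F} : Adm (cliqueComplex (Gr s)) x ↔
    base x ∧ ∀ i ∈ s, cond i x := by
  rw [adm_iff]
  constructor
  · rintro ⟨h1, h2, h3⟩
    refine ⟨⟨h1, fun t ht => h3 t (Or.inr ht)⟩, ?_⟩
    rintro (c | t) hi
    · exact h2 c hi
    · exact h3 t (Or.inl hi)
  · rintro ⟨⟨h1, h2⟩, h3⟩
    refine ⟨h1, fun c hc => h3 _ hc, ?_⟩
    rintro t (ht | ht)
    · exact h3 _ ht
    · exact h2 t ht

theorem Ind2.unscale {u w : Fin 3 → F} {a b : F} (ha : a ≠ 0) (hb : b ≠ 0)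
    (h : Ind2 (a • u) (b • w)) : Ind2 u w := by
  intro c d hc hd heq
  apply h (c / a) (d / b) (div_ne_zero hc ha) (div_ne_zero hd hb)
  rw [smul_smul, smul_smul, div_mul_cancel₀ _ ha, div_mul_cancel₀ _ hb]
  exact heq

theorem Ind2.scale {u w : Fin 3 → F} {a b : F} (ha : a ≠ 0) (hb : b ≠ 0)
    (h : Ind2 u w) : Ind2 (a • u) (b • w) := by
  intro c d hc hd heq
  apply h (c * a) (d * b) (mul_ne_zero hc ha) (mul_ne_zero hd hb)
  rw [mul_smul, mul_smul]
  exact heq

theorem Ind2.symm {u w : Fin 3 → F} (h : Ind2 u w) : Ind2 w u := by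
  intro a b ha hb heq
  exact h b a hb ha (by rw [add_comm]; exact heq)

theorem exists_scale {u w : Fin 3 → F} (h : ¬ Ind2 u w) : ∃ c : F, c ≠ 0 ∧ w = c • u := by
  unfold Ind2 at h
  push Not at h
  obtain ⟨a, b, ha, hb, heq⟩ := h
  refine ⟨-(a / b), neg_ne_zero.2 (div_ne_zero ha hb), ?_⟩
  funext k
  have := congrFun heq k
  simp only [Pi.add_apply, Pi.smul_apply, smul_eq_mul, Pi.zero_apply] at this ⊢
  field_simp
  linear_combination this

theorem li_of {u w z : Fin 3 → F} (hu : u ≠ 0) (hw : w ≠ 0) (hz : z ≠ 0) (h : Ind3 u w z)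
    {a b c : F} (heq : a • u + b • w + c • z = 0) : a = 0 ∧ b = 0 ∧ c = 0 := by
  obtain ⟨h1, h2, h3, h4⟩ := h
  by_cases ha : a = 0 <;> by_cases hb : b = 0 <;> by_cases hc : c = 0
  · exact ⟨ha, hb, hc⟩
  · simp only [ha, hb, zero_smul, zero_add] at heq
    exact absurd heq (smul_ne_zero hc hz)
  · simp only [ha, hc, zero_smul, zero_add, add_zero] at heq
    exact absurd heq (smul_ne_zero hb hw)
  · simp only [ha, zero_smul, zero_add] at heq
    exact absurd heq (h3 b c hb hc)
  · simp only [hb, hc, zero_smul, add_zero] at heq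
    exact absurd heq (smul_ne_zero ha hu)
  · simp only [hb, zero_smul, add_zero] at heq
    exact absurd heq (h2 a c ha hc)
  · simp only [hc, zero_smul, add_zero] at heq
    exact absurd heq (h1 a b ha hb)
  · exact absurd heq (h4 a b c ha hb hc)

/-- every pair of points lies in a triple of the second Fano plane -/
theorem cover : ∀ i j : Fin 7, i ≠ j → ∃ t : Fin 14, 7 ≤ (t : ℕ) ∧ ∃ x y : Fin 3, x < y ∧
    ((T t x = i ∧ T t y = j) ∨ (T t x = j ∧ T t y = i)) := by decide

theorem no_fano (h2 : (2 : F) ≠ 0) (x : Fin 3 → Vx → F) (hb : base x)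
    (hc : ∀ i : Ix, (∀ t, i = Sum.inr t → (t : ℕ) < 7) → ¬ cond i x) : False := by
  have hs : ∀ c : Fin 14 × Fin 3, ∃ κ : F, κ ≠ 0 ∧
      vec x (Sum.inr c) = κ • vec x (Sum.inl (T c.1 c.2)) := fun c =>
    exists_scale (hc (Sum.inl c) (by intro t h; cases h))
  choose κ hκ hκe using hs
  have hI2' : ∀ t : Fin 14, 7 ≤ (t : ℕ) → ∀ i j : Fin 3, i < j →
      Ind2 (vec x (Sum.inl (T t i))) (vec x (Sum.inl (T t j))) := by
    intro t ht i j hij
    have h3 := hb.2 t ht
    have h4 : Ind2 (vec x (Sum.inr (t, i))) (vec x (Sum.inr (t, j))) := by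
      have key : ∀ i j : Fin 3, i < j → (i = 0 ∧ j = 1) ∨ (i = 0 ∧ j = 2) ∨ (i = 1 ∧ j = 2) := by
        decide
      rcases key i j hij with ⟨rfl, rfl⟩ | ⟨rfl, rfl⟩ | ⟨rfl, rfl⟩
      · exact h3.1
      · exact h3.2.1
      · exact h3.2.2.1
    rw [hκe, hκe] at h4
    exact h4.unscale (hκ _) (hκ _)
  have hI2 : ∀ i j : Fin 7, i ≠ j → Ind2 (vec x (Sum.inl i)) (vec x (Sum.inl j)) := by
    intro i j hij
    obtain ⟨t, ht, y, z, hyz, (⟨rfl, rfl⟩ | ⟨rfl, rfl⟩)⟩ := cover i j hij
    · exact hI2' t ht y z hyz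
    · exact (hI2' t ht y z hyz).symm
  have hrel : ∀ t : Fin 14, (t : ℕ) < 7 → ∃ a b c : F, a ≠ 0 ∧ b ≠ 0 ∧ c ≠ 0 ∧
      ∀ k, a * x k (Sum.inl (T t 0)) + b * x k (Sum.inl (T t 1))
        + c * x k (Sum.inl (T t 2)) = 0 := by
    intro t ht
    have h3 : ¬ Ind3 (vec x (Sum.inr (t, 0))) (vec x (Sum.inr (t, 1))) (vec x (Sum.inr (t, 2))) :=
      hc (Sum.inr t) (by
        intro t' h
        cases h
        exact ht)
    have hne : ∀ y z : Fin 3, y ≠ z → T t y ≠ T t z := fun y z hyz h => hyz (T_inj _ _ _ h)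
    have h4 : ¬ ∀ a b c : F, a ≠ 0 → b ≠ 0 → c ≠ 0 → a • vec x (Sum.inr (t, 0))
        + b • vec x (Sum.inr (t, 1)) + c • vec x (Sum.inr (t, 2)) ≠ 0 := by
      intro h5
      apply h3
      refine ⟨?_, ?_, ?_, h5⟩
      · rw [hκe, hκe]
        exact (hI2 _ _ (hne 0 1 (by decide))).scale (hκ _) (hκ _)
      · rw [hκe, hκe]
        exact (hI2 _ _ (hne 0 2 (by decide))).scale (hκ _) (hκ _)
      · rw [hκe, hκe]
        exact (hI2 _ _ (hne 1 2 (by decide))).scale (hκ _) (hκ _)
    push Not at h4
    obtain ⟨a, b, c, ha, hb', hc', heq⟩ := h4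
    refine ⟨a * κ (t, 0), b * κ (t, 1), c * κ (t, 2), mul_ne_zero ha (hκ _),
      mul_ne_zero hb' (hκ _), mul_ne_zero hc' (hκ _), fun k => ?_⟩
    rw [hκe, hκe, hκe] at heq
    have := congrFun heq k
    simp only [Pi.add_apply, Pi.smul_apply, smul_eq_mul, Pi.zero_apply, vec] at this
    linear_combination this
  have hli : ∀ a b c : F, (∀ k, a * x k (Sum.inl 0) + b * x k (Sum.inl 1)
      + c * x k (Sum.inl 2) = 0) → a = 0 ∧ b = 0 ∧ c = 0 := by
    intro a b c h
    have h3 := hb.2 7 (by decide)
    rw [hκe, hκe, hκe] at h3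
    have h4 : Ind3 (vec x (Sum.inl 0)) (vec x (Sum.inl 1)) (vec x (Sum.inl 2)) := by
      obtain ⟨i1, i2, i3, i4⟩ := h3
      refine ⟨i1.unscale (hκ _) (hκ _), i2.unscale (hκ _) (hκ _), i3.unscale (hκ _) (hκ _), ?_⟩
      intro a b c ha hb' hc' heq
      apply i4 (a / κ (7, 0)) (b / κ (7, 1)) (c / κ (7, 2)) (div_ne_zero ha (hκ _))
        (div_ne_zero hb' (hκ _)) (div_ne_zero hc' (hκ _))
      rw [smul_smul, smul_smul, smul_smul, div_mul_cancel₀ _ (hκ _), div_mul_cancel₀ _ (hκ _),
        div_mul_cancel₀ _ (hκ _)]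
      exact heq
    apply li_of (hb.1 _) (hb.1 _) (hb.1 _) h4
    funext k
    exact h k
  obtain ⟨b0, c0, e0, hb0, hc0, he0, r0⟩ := hrel 0 (by decide)
  obtain ⟨a1, d1, e1, ha1, hd1, he1, r1⟩ := hrel 1 (by decide)
  obtain ⟨a2, c2, f2, ha2, hc2, hf2, r2⟩ := hrel 2 (by decide)
  obtain ⟨b3, d3, f3, hb3, hd3, hf3, r3⟩ := hrel 3 (by decide)
  obtain ⟨a4, b4, g4, ha4, hb4, hg4, r4⟩ := hrel 4 (by decide)
  obtain ⟨c5, d5, g5, hc5, hd5, hg5, r5⟩ := hrel 5 (by decide)
  obtain ⟨e6, f6, g6, he6, hf6, hg6, r6⟩ := hrel 6 (by decide)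
  have s0 : ∀ k, b0 * x k (Sum.inl 1) + c0 * x k (Sum.inl 2) + e0 * x k (Sum.inl 4) = 0 := r0
  have s1 : ∀ k, a1 * x k (Sum.inl 0) + d1 * x k (Sum.inl 3) + e1 * x k (Sum.inl 4) = 0 := r1
  have s2 : ∀ k, a2 * x k (Sum.inl 0) + c2 * x k (Sum.inl 2) + f2 * x k (Sum.inl 5) = 0 := r2
  have s3 : ∀ k, b3 * x k (Sum.inl 1) + d3 * x k (Sum.inl 3) + f3 * x k (Sum.inl 5) = 0 := r3
  have s4 : ∀ k, a4 * x k (Sum.inl 0) + b4 * x k (Sum.inl 1) + g4 * x k (Sum.inl 6) = 0 := r4
  have s5 : ∀ k, c5 * x k (Sum.inl 2) + d5 * x k (Sum.inl 3) + g5 * x k (Sum.inl 6) = 0 := r5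
  have s6 : ∀ k, e6 * x k (Sum.inl 4) + f6 * x k (Sum.inl 5) + g6 * x k (Sum.inl 6) = 0 := r6
  -- comparison of (i) and (ii)
  have E3 := (hli (-(a1 * e0 * f2 * d3) - f3 * a2 * e0 * d1) (e1 * b0 * f2 * d3 + b3 * f2 * e0 * d1)
    (e1 * c0 * f2 * d3 - f3 * c2 * e0 * d1) (fun k => by
      linear_combination (-e0 * f2 * d3) * s1 k + (e1 * f2 * d3) * s0 k
        + (e0 * d1 * f2) * s3 k - (e0 * d1 * f3) * s2 k)).2.2
  have E2 := (hli (-(a1 * e0 * g4 * d5) - g5 * a4 * e0 * d1) (e1 * b0 * g4 * d5 - g5 * b4 * e0 * d1)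
    (e1 * c0 * g4 * d5 + c5 * g4 * e0 * d1) (fun k => by
      linear_combination (-e0 * g4 * d5) * s1 k + (e1 * g4 * d5) * s0 k
        + (e0 * d1 * g4) * s5 k - (e0 * d1 * g5) * s4 k)).2.1
  have E1 := (hli (f3 * a2 * g4 * d5 - g5 * a4 * f2 * d3) (-(b3 * f2 * g4 * d5) - g5 * b4 * f2 * d3)
    (f3 * c2 * g4 * d5 + c5 * g4 * f2 * d3) (fun k => by
      linear_combination (-f2 * g4 * d5) * s3 k + (f3 * g4 * d5) * s2 k
        + (f2 * d3 * g4) * s5 k - (f2 * d3 * g5) * s4 k)).1
  have E456 := hli (f6 * e0 * g4 * a2 + g6 * e0 * f2 * a4) (e6 * f2 * g4 * b0 + g6 * e0 * f2 * b4)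
    (e6 * f2 * g4 * c0 + f6 * e0 * g4 * c2) (fun k => by
      linear_combination (e6 * f2 * g4) * s0 k + (f6 * e0 * g4) * s2 k + (g6 * e0 * f2) * s4 k
        - (e0 * f2 * g4) * s6 k)
  obtain ⟨E4, E5, E6⟩ := E456
  have A : f6 * g5 * d3 + g6 * f3 * d5 = 0 := by
    have : (e0 * f2 * a4) * (f6 * g5 * d3 + g6 * f3 * d5) = 0 := by
      linear_combination (f3 * d5) * E4 - (f6 * e0) * E1
    rcases mul_eq_zero.1 this with h | h
    · exact absurd h (mul_ne_zero (mul_ne_zero he0 hf2) ha4)
    · exact h
  have B : e6 * g5 * d1 + g6 * e1 * d5 = 0 := by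
    have : (e0 * f2 * b4) * (e6 * g5 * d1 + g6 * e1 * d5) = 0 := by
      linear_combination (e1 * d5) * E5 - (e6 * f2) * E2
    rcases mul_eq_zero.1 this with h | h
    · exact absurd h (mul_ne_zero (mul_ne_zero he0 hf2) hb4)
    · exact h
  have C : e6 * f3 * d1 + f6 * e1 * d3 = 0 := by
    have : (e0 * g4 * c2) * (e6 * f3 * d1 + f6 * e1 * d3) = 0 := by
      linear_combination (e1 * d3) * E6 - (e6 * g4) * E3
    rcases mul_eq_zero.1 this with h | h
    · exact absurd h (mul_ne_zero (mul_ne_zero he0 hg4) hc2)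
    · exact h
  have D : 2 * (e6 * f3 * g5 * d1) = 0 := by
    linear_combination g5 * C + f3 * B - e1 * A
  rcases mul_eq_zero.1 D with h | h
  · exact h2 h
  · exact absurd h (mul_ne_zero (mul_ne_zero (mul_ne_zero he6 hf3) hg5) hd1)

end config

/-! ### Inclusion-exclusion over the graphs -/

section incl

variable {F : Type} [Field F] [Fintype F]

open Classical in
/-- the index set of the signed sum -/
noncomputable def I0 : Finset Ix :=
  Finset.univ.filter fun i => ∀ t, i = Sum.inr t → (t : ℕ) < 7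

open Classical in
theorem signed_sum : ∑ s ∈ I0.powerset, (-1 : ℤ) ^ s.card *
      (charPoly (arrangement (cliqueComplex (Gr s)) F)).eval ((Fintype.card F : ℤ) ^ 3)
    = ((Finset.univ.filter fun x : Fin 3 → Vx → F =>
        base x ∧ ∀ i ∈ I0, ¬ cond i x).card : ℤ) := by
  have h1 := Finset.inclusion_exclusion_sum_inf_compl (G := ℤ) I0
    (fun i : Ix => Finset.univ.filter fun x : Fin 3 → Vx → F => cond i x)
    (fun x : Fin 3 → Vx → F => if base x then (1 : ℤ) else 0)
  have h2 : (I0.inf fun i : Ix =>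
      (Finset.univ.filter fun x : Fin 3 → Vx → F => cond i x)ᶜ)
      = Finset.univ.filter fun x : Fin 3 → Vx → F => ∀ i ∈ I0, ¬ cond i x := by
    ext x
    simp [Finset.mem_inf]
  have h3 : ∀ s : Finset Ix, (s.inf fun i : Ix =>
      (Finset.univ.filter fun x : Fin 3 → Vx → F => cond i x))
      = Finset.univ.filter fun x : Fin 3 → Vx → F => ∀ i ∈ s, cond i x := by
    intro s
    ext x
    simp [Finset.mem_inf]
  rw [h2] at h1
  have h4 : ((Finset.univ.filter fun x : Fin 3 → Vx → F =>
        base x ∧ ∀ i ∈ I0, ¬ cond i x).card : ℤ)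
      = ∑ x ∈ Finset.univ.filter (fun x : Fin 3 → Vx → F => ∀ i ∈ I0, ¬ cond i x),
        (if base x then (1 : ℤ) else 0) := by
    rw [Finset.sum_boole, Finset.filter_filter]
    congr 2
    ext x
    simp [and_comm]
  rw [h4, h1]
  apply Finset.sum_congr rfl
  intro s _
  rw [eval_arr, h3 s, Finset.sum_boole, Finset.filter_filter, zsmul_eq_mul]
  push_cast
  congr 3
  ext x
  simp only [Finset.mem_filter, Finset.mem_univ, true_and]
  rw [adm_iff']
  exact and_comm

end incl

/-! ### A Fano plane over the field with two elements -/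

/-- the seven points -/
def pt : Fin 7 → Fin 3 → ZMod 2 :=
  ![![1, 0, 0], ![0, 1, 0], ![0, 0, 1], ![1, 1, 1], ![0, 1, 1], ![1, 0, 1], ![1, 1, 0]]

/-- the configuration over the field with two elements -/
def xF : Fin 3 → Vx → ZMod 2 := fun k u =>
  match u with
  | Sum.inl i => pt i k
  | Sum.inr c => pt (T c.1 c.2) k

theorem ne_two {a : ZMod 2} (h : a ≠ 0) : a = 1 := by
  revert h a
  decide

theorem pt_sum : ∀ t : Fin 14, (t : ℕ) < 7 → pt (T t 0) + pt (T t 1) + pt (T t 2) = 0 := by
  decide

theorem pt_ne : ∀ i, pt i ≠ 0 := by decide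

theorem pt_pair : ∀ t : Fin 14, 7 ≤ (t : ℕ) → pt (T t 0) + pt (T t 1) ≠ 0 ∧
    pt (T t 0) + pt (T t 2) ≠ 0 ∧ pt (T t 1) + pt (T t 2) ≠ 0 ∧
    pt (T t 0) + pt (T t 1) + pt (T t 2) ≠ 0 := by decide

theorem pt_self : ∀ i, pt i + pt i = 0 := by decide

theorem xF_base : base xF := by
  constructor
  · rintro (i | c)
    · exact pt_ne i
    · exact pt_ne _
  · intro t ht
    obtain ⟨h1, h2, h3, h4⟩ := pt_pair t ht
    refine ⟨?_, ?_, ?_, ?_⟩
    · intro a b ha hb
      rw [ne_two ha, ne_two hb, one_smul, one_smul]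
      exact h1
    · intro a b ha hb
      rw [ne_two ha, ne_two hb, one_smul, one_smul]
      exact h2
    · intro a b ha hb
      rw [ne_two ha, ne_two hb, one_smul, one_smul]
      exact h3
    · intro a b c ha hb hc
      rw [ne_two ha, ne_two hb, ne_two hc, one_smul, one_smul, one_smul]
      exact h4

theorem xF_cond : ∀ i ∈ I0, ¬ cond i xF := by
  intro i hi
  have hi' : ∀ t, i = Sum.inr t → (t : ℕ) < 7 := by
    unfold I0 at hi
    exact (Finset.mem_filter.1 hi).2
  rcases i with c | t
  · intro h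
    apply h 1 1 one_ne_zero one_ne_zero
    rw [one_smul, one_smul]
    exact pt_self (T c.1 c.2)
  · intro h
    apply h.2.2.2 1 1 1 one_ne_zero one_ne_zero one_ne_zero
    rw [one_smul, one_smul, one_smul]
    exact pt_sum t (hi' t rfl)

/-! ### The contradiction -/

open Classical in
/-- the number of configurations counted by the signed sum -/
noncomputable def cnt (F : Type) [Field F] [Fintype F] : ℕ :=
  (Finset.univ.filter fun x : Fin 3 → Vx → F => base x ∧ ∀ i ∈ I0, ¬ cond i x).card

theorem signed_sum' (F : Type) [Field F] [Fintype F] : ∑ s ∈ I0.powerset, (-1 : ℤ) ^ s.card *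
      (charPoly (arrangement (cliqueComplex (Gr s)) F)).eval ((Fintype.card F : ℤ) ^ 3)
    = (cnt F : ℤ) := signed_sum

open Classical in
theorem cnt_zero {F : Type} [Field F] [Fintype F] (h2 : (2 : F) ≠ 0) : cnt F = 0 := by
  unfold cnt
  rw [Finset.card_eq_zero, Finset.filter_eq_empty_iff]
  rintro x _ ⟨hb, hc⟩
  refine no_fano h2 x hb ?_
  intro i hi
  apply hc i
  unfold I0
  exact Finset.mem_filter.2 ⟨Finset.mem_univ _, hi⟩

open Classical in
theorem cnt_ne_zero {F : Type} [Field F] [Fintype F] (x : Fin 3 → Vx → F) (hb : base x)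
    (hc : ∀ i ∈ I0, ¬ cond i x) : cnt F ≠ 0 := by
  unfold cnt
  rw [Finset.card_ne_zero]
  exact ⟨x, Finset.mem_filter.2 ⟨Finset.mem_univ _, hb, hc⟩⟩

theorem cnt_two : cnt (ZMod 2) ≠ 0 := cnt_ne_zero xF xF_base xF_cond

theorem key (P : Finset Ix → Polynomial (Polynomial ℂ))
    (hP : ∀ s, InterpolatesPrimes (cliqueComplex (Gr s)) (P s)) : False := by
  classical
  set R : Polynomial ℂ := ∑ s ∈ I0.powerset,
    (-1) ^ s.card * (P s).eval (Polynomial.X ^ 3) with hR
  have hev : ∀ (q : ℕ) [Fact q.Prime], R.eval (q : ℂ) = (cnt (ZMod q) : ℂ) := by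
    intro q hq
    have h1 := signed_sum' (ZMod q)
    have h2 : ((∑ s ∈ I0.powerset, (-1 : ℤ) ^ s.card *
      (charPoly (arrangement (cliqueComplex (Gr s)) (ZMod q))).eval
        ((Fintype.card (ZMod q) : ℤ) ^ 3) : ℤ) : ℂ) = (cnt (ZMod q) : ℂ) := by
      rw [h1]
      exact Int.cast_natCast _
    rw [← h2, hR, Polynomial.eval_finsetSum, Int.cast_sum]
    apply Finset.sum_congr rfl
    intro s _
    rw [Polynomial.eval_mul, Int.cast_mul]
    refine congrArg₂ (· * ·) ?_ ?_
    · rw [Int.cast_pow, Int.cast_neg, Int.cast_one, Polynomial.eval_pow, Polynomial.eval_neg,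
        Polynomial.eval_one]
    · have h3 := congrArg (Polynomial.eval ((q : ℂ) ^ 3)) (hP s q)
      rw [ZMod.card]
      have h4 : (((charPoly (arrangement (cliqueComplex (Gr s)) (ZMod q))).eval ((q : ℤ) ^ 3) : ℤ) : ℂ)
          = ((charPoly (arrangement (cliqueComplex (Gr s)) (ZMod q))).map (Int.castRingHom ℂ)).eval
            ((q : ℂ) ^ 3) := by
        rw [Polynomial.eval_map]
        have := Polynomial.hom_eval₂ (charPoly (arrangement (cliqueComplex (Gr s)) (ZMod q)))
          (RingHom.id ℤ) (Int.castRingHom ℂ) ((q : ℤ) ^ 3)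
        simp only [RingHom.comp_id, Polynomial.eval₂_id, eq_intCast] at this
        rw [this, Int.cast_pow, Int.cast_natCast]
      rw [h4, h3, Polynomial.eval_map]
      have h5 := Polynomial.hom_eval₂ (P s) (RingHom.id (Polynomial ℂ))
        (Polynomial.evalRingHom (q : ℂ)) (Polynomial.X ^ 3)
      simp only [RingHom.comp_id, Polynomial.eval₂_id, Polynomial.coe_evalRingHom,
        Polynomial.eval_pow, Polynomial.eval_X] at h5
      exact h5
  have hodd : ∀ q : ℕ, q.Prime → q ≠ 2 → R.eval (q : ℂ) = 0 := by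
    intro q hq hq2
    have : Fact q.Prime := ⟨hq⟩
    rw [hev q, cnt_zero, Nat.cast_zero]
    intro h
    have h2 : ((2 : ℕ) : ZMod q) = 0 := by exact_mod_cast h
    rw [ZMod.natCast_eq_zero_iff] at h2
    exact hq2 ((Nat.prime_dvd_prime_iff_eq hq Nat.prime_two).1 h2)
  have hR0 : R = 0 := by
    apply Polynomial.eq_zero_of_infinite_isRoot
    have hinf : Set.Infinite {q : ℕ | q.Prime ∧ q ≠ 2} := by
      have h1 := Nat.infinite_setOfPred_prime
      have h2 : {q : ℕ | q.Prime ∧ q ≠ 2} = {q : ℕ | q.Prime} \ {2} := by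
        ext q
        simp
      rw [h2]
      exact h1.sdiff (Set.finite_singleton 2)
    apply Set.Infinite.mono _ (hinf.image (f := fun q : ℕ => (q : ℂ)) (by
      intro a _ b _ h
      exact Nat.cast_injective (R := ℂ) h))
    rintro z ⟨q, ⟨hq, hq2⟩, rfl⟩
    exact hodd q hq hq2
  have : Fact (Nat.Prime 2) := ⟨Nat.prime_two⟩
  have h2 := hev 2
  rw [hR0, Polynomial.eval_zero] at h2
  exact cnt_two (Nat.cast_eq_zero (R := ℂ) |>.1 h2.symm)

/-- There is a finite graph such that for its clique complex `Δ` there is no polynomial `P(q, t)`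
with `χ(S_Δ^q, t) = P(q, t)` for all primes `q`. -/
theorem result : ∃ (V : Type) (_ : Fintype V) (_ : DecidableEq V) (G : SimpleGraph V),
    ¬ ∃ P : Polynomial (Polynomial ℂ), InterpolatesPrimes (cliqueComplex G) P := by
  classical
  by_contra hcon
  push Not at hcon
  have h : ∀ s : Finset Ix, ∃ P : Polynomial (Polynomial ℂ),
      InterpolatesPrimes (cliqueComplex (Gr s)) P :=
    fun s => hcon Vx inferInstance inferInstance (Gr s)
  choose P hP using h
  exact key P hP

end Pool.Agent.Results.MP_6fdec2_co.NoPolynomial
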